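import Pool.Agent.H70.AM.OddRT
import Pool.Agent.H70.AM.EvenAll

set_option autoImplicit false

open Matrix
open scoped ENNReal

namespace Pool.Agent.Results.MP_becd93_ag.Strict

/-- The Riemann theta function of a period matrix `τ`. -/
noncomputable def theta {g : ℕ} (τ : Matrix (Fin g) (Fin g) ℂ) (w : Fin g → ℂ) : ℂ :=
  ∑' n : Fin g → ℤ,
    Complex.exp ((Real.pi : ℂ) * Complex.I *
        ((fun i => (n i : ℂ)) ⬝ᵥ (τ *ᵥ (fun i => (n i : ℂ)))) +
      2 * (Real.pi : ℂ) * Complex.I * ((fun i => (n i : ℂ)) ⬝ᵥ w))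

/-- The preimage in `ℂ^g` of the singular locus of the theta divisor. -/
noncomputable def sing {g : ℕ} (τ : Matrix (Fin g) (Fin g) ℂ) : Set (Fin g → ℂ) :=
  {z | theta τ z = 0 ∧ fderiv ℂ (theta τ) z = 0}

/-- The Andreotti-Mayer locus `N_{k,g}` on the Siegel upper half space: period matrices whose
theta divisor has nonempty singular locus of complex dimension at least `k`. -/
def AndreottiMayer (k g : ℕ) : Set (Matrix (Fin g) (Fin g) ℂ) :=
  {τ | τ.transpose = τ ∧ (τ.map Complex.im).PosDef ∧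
    (∃ z : Fin g → ℂ, z ∈ sing τ) ∧ ((2 * k : ℕ) : ℝ≥0∞) ≤ dimH (sing τ)}

lemma strict_of {k g : ℕ} (h : ∃ τ : Matrix (Fin g) (Fin g) ℂ, τᵀ = τ ∧
    (τ.map Complex.im).PosDef ∧ (Pool.Agent.H70.AM.Sg (Pool.Agent.H70.AM.riem τ)).Nonempty ∧
    dimH (Pool.Agent.H70.AM.Sg (Pool.Agent.H70.AM.riem τ)) = ((2 * k : ℕ) : ℝ≥0∞)) :
    AndreottiMayer (k + 1) g ⊂ AndreottiMayer k g := by
  obtain ⟨τ, h1, h2, h3, h4⟩ := h
  rw [Set.ssubset_iff_of_subset]
  · refine ⟨τ, ⟨h1, h2, h3, h4.ge⟩, ?_⟩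
    rintro ⟨-, -, -, h5⟩
    have h6 : ((2 * (k + 1) : ℕ) : ℝ≥0∞) ≤ ((2 * k : ℕ) : ℝ≥0∞) := h5.trans h4.le
    have h7 : 2 * (k + 1) ≤ 2 * k := by exact_mod_cast h6
    omega
  · rintro τ' ⟨a1, a2, a3, a4⟩
    refine ⟨a1, a2, a3, le_trans ?_ a4⟩
    exact_mod_cast (by omega : 2 * k ≤ 2 * (k + 1))

/-- The inclusion `N_{k+1,g} ⊂ N_{k,g}` is strict for all `g ≥ k + 2` with `g - k` even, and for
all `k + 4 ≤ g ≤ 3 k + 4`. -/
theorem result : ∀ k g : ℕ, k + 2 ≤ g → g ≠ k + 3 → (Even (g - k) ∨ g ≤ 3 * k + 4) →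
    AndreottiMayer (k + 1) g ⊂ AndreottiMayer k g := by
  intro k g h1 h3 h2
  rcases Nat.even_or_odd' (g - k) with ⟨N, hN | hN⟩
  · have hg : g = k + 2 * N := by omega
    subst hg
    exact strict_of (Pool.Agent.H70.AM.even_all k N (by omega))
  · have hodd : ¬ Even (g - k) := by
      rw [hN, Nat.not_even_iff_odd]
      exact ⟨N, rfl⟩
    have h2' : g ≤ 3 * k + 4 := h2.resolve_left hodd
    have hg : g = k + (2 * (N + 1) - 1) := by omega
    subst hg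
    exact strict_of (Pool.Agent.H70.AM.odd_main k (N + 1) (by omega) (by omega))

end Pool.Agent.Results.MP_becd93_ag.Strict
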